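import Pool.Agent.H101Z.Face

set_option autoImplicit false

namespace Pool.Agent.H101Z.Claw3

open MvPolynomial Pool.Agent.H101Z.Face

/-- the group -/
abbrev G (r : ℕ) : Type := ZMod 98 × ZMod (r + 2) × ZMod (r + 2)

/-- the nodes -/
abbrev E (r : ℕ) : Type := Fin (r + 1) × Fin 32

def tA : Fin 32 → ZMod 98 :=
  ![75, 63, 75, 93, 42, 52, 40, 52, 40, 15, 66, 63, 93, 42, 93, 75, 63, 66, 15, 66, 15, 40, 52, 42,
    93, 42, 15, 66, 42, 93, 66, 15]

def tB : Fin 32 → ZMod 98 :=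
  ![21, 21, 9, 9, 60, 60, 72, 72, 84, 84, 33, 33, 64, 64, 13, 13, 25, 25, 76, 76, 29, 29, 17, 17,
    8, 8, 35, 35, 14, 14, 41, 41]

def off : Fin 32 → ℕ :=
  ![0, 0, 0, 0, 0, 0, 0, 0, 0, 0, 0, 0, 1, 1, 1, 0, 0, 1, 1, 1, 1, 0, 0, 1, 0, 0, 0, 0, 0, 0, 0, 0]

def pb : Fin 32 → Fin 32 :=
  ![1, 0, 3, 2, 5, 4, 7, 6, 9, 8, 11, 10, 13, 12, 15, 14, 17, 16, 19, 18, 21, 20, 23, 22, 25, 24,
    27, 26, 29, 28, 31, 30]

def pc : Fin 32 → Fin 32 :=
  ![11, 2, 1, 4, 3, 6, 5, 8, 7, 10, 9, 0, 23, 14, 13, 16, 15, 18, 17, 20, 19, 22, 21, 12, 27, 26,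
    25, 24, 31, 30, 29, 28]

def cf : Fin 32 → ℤ :=
  ![1, -1, 1, -1, 1, -1, 1, -1, 1, -1, 1, -1, 2, -2, 2, -2, 2, -2, 2, -2, 2, -2, 2, -2, 1, -1, 1, -1,
    1, -1, 1, -1]

/-- kind of cycle -/
def kd (t : Fin 32) : ℕ := if t.val < 24 then 0 else if t.val < 28 then 1 else 2

theorem tB_eq : ∀ t t' : Fin 32, tB t = tB t' ↔ t = t' ∨ t = pb t' := by decide +kernel
theorem tC_eq : ∀ t t' : Fin 32, -tA t - tB t = -tA t' - tB t' ↔ t = t' ∨ t = pc t' := by
  decide +kernel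
theorem pb_ne : ∀ t : Fin 32, pb t ≠ t := by decide +kernel
theorem pc_ne : ∀ t : Fin 32, pc t ≠ t := by decide +kernel
theorem pb_pb : ∀ t : Fin 32, pb (pb t) = t := by decide +kernel
theorem pc_pc : ∀ t : Fin 32, pc (pc t) = t := by decide +kernel
theorem pb_ne_pc : ∀ t : Fin 32, pb t ≠ pc t := by decide +kernel
theorem off_pc : ∀ t : Fin 32, off (pc t) = off t := by decide +kernel
theorem off_le : ∀ t : Fin 32, off t ≤ 1 := by decide +kernel
theorem kd_pb : ∀ t : Fin 32, kd (pb t) = kd t := by decide +kernel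
theorem kd_pc : ∀ t : Fin 32, kd (pc t) = kd t := by decide +kernel
theorem cf_pb : ∀ t : Fin 32, cf (pb t) = -cf t := by decide +kernel
theorem cf_pc : ∀ t : Fin 32, cf (pc t) = -cf t := by decide +kernel
theorem tri8 : ∀ t2 t3 : Fin 32, ∀ a ∈ ([93, 15, 42, 66, 75, 40, 63, 52] : List (ZMod 98)),
    a + tB t2 + (-tA t3 - tB t3) = 0 →
    t3 = t2 ∨ t3 = pc t2 ∨ t3 = pb t2 ∨ t3 = pc (pb t2) := by decide +kernel
theorem tA_mem : ∀ t : Fin 32, tA t ∈ ([93, 15, 42, 66, 75, 40, 63, 52] : List (ZMod 98)) := by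
  decide +kernel

variable (r : ℕ)

def la (i : ℕ) (t : Fin 32) : G r := (tA t, ((i + off t : ℕ) : ZMod (r + 2)), 0)
def lb (i : ℕ) (t : Fin 32) : G r := (tB t, 0, (i : ZMod (r + 2)))
def lc (i : ℕ) (t : Fin 32) : G r :=
  (-tA t - tB t, -((i + off t : ℕ) : ZMod (r + 2)), -(i : ZMod (r + 2)))

/-- the flow of a node -/
def lab (e : E r) : Fin 3 → G r := ![la r e.1 e.2, lb r e.1 e.2, lc r e.1 e.2]

theorem lab_sum (e : E r) : lab r e 0 + lab r e 1 + lab r e 2 = 0 := by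
  simp [lab, la, lb, lc]

/-- valid nodes -/
def V (e : E r) : Prop :=
  (kd e.2 = 0 → e.1.val < r) ∧ (kd e.2 = 1 → e.1.val = 0) ∧ (kd e.2 = 2 → e.1.val = r)

instance : DecidablePred (V r) := fun _ => by unfold V; infer_instance

theorem cast_inj {a b : ℕ} (ha : a < r + 2) (hb : b < r + 2)
    (h : (a : ZMod (r + 2)) = (b : ZMod (r + 2))) : a = b := by
  rw [ZMod.natCast_eq_natCast_iff', Nat.mod_eq_of_lt ha, Nat.mod_eq_of_lt hb] at h
  exact h

theorem lb_eq (e e' : E r) : lab r e 1 = lab r e' 1 ↔ e = e' ∨ e = (e'.1, pb e'.2) := by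
  obtain ⟨i, t⟩ := e
  obtain ⟨i', t'⟩ := e'
  constructor
  · intro h
    have h1 : tB t = tB t' := congrArg Prod.fst h
    have h2 : ((i : ℕ) : ZMod (r + 2)) = ((i' : ℕ) : ZMod (r + 2)) := congrArg (fun g => g.2.2) h
    have h3 : i = i' := Fin.ext (cast_inj r (by omega) (by omega) h2)
    subst h3
    rcases (tB_eq t t').mp h1 with h | h <;> simp [h]
  · rintro (h | h)
    · rw [h]
    · rw [h]
      show lb r i' (pb t') = lb r i' t'
      unfold lb
      rw [(tB_eq _ _).mpr (Or.inr rfl)]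

theorem lc_eq (e e' : E r) : lab r e 2 = lab r e' 2 ↔ e = e' ∨ e = (e'.1, pc e'.2) := by
  obtain ⟨i, t⟩ := e
  obtain ⟨i', t'⟩ := e'
  constructor
  · intro h
    have h1 : -tA t - tB t = -tA t' - tB t' := congrArg Prod.fst h
    have h2 : -((i : ℕ) : ZMod (r + 2)) = -((i' : ℕ) : ZMod (r + 2)) := congrArg (fun g => g.2.2) h
    have h3 : i = i' := Fin.ext (cast_inj r (by omega) (by omega) (neg_injective h2))
    subst h3
    rcases (tC_eq t t').mp h1 with h | h <;> simp [h]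
  · rintro (h | h)
    · rw [h]
    · rw [h]
      show lc r i' (pc t') = lc r i' t'
      unfold lc
      rw [(tC_eq _ _).mpr (Or.inr rfl), off_pc]

theorem la_eq (e e' : E r) :
    lab r e 0 = lab r e' 0 ↔ tA e.2 = tA e'.2 ∧ e.1.val + off e.2 = e'.1.val + off e'.2 := by
  obtain ⟨i, t⟩ := e
  obtain ⟨i', t'⟩ := e'
  constructor
  · intro h
    refine ⟨congrArg Prod.fst h, ?_⟩
    have h2 : ((i + off t : ℕ) : ZMod (r + 2)) = ((i' + off t' : ℕ) : ZMod (r + 2)) :=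
      congrArg (fun g => g.2.1) h
    have := off_le t
    have := off_le t'
    show i.val + off t = i'.val + off t'
    exact cast_inj r (by omega) (by omega) h2
  · rintro ⟨h1, h2⟩
    show la r i t = la r i' t'
    unfold la
    simp only at h1 h2
    rw [h1, h2]

theorem lab_inj (e e' : E r) (h1 : lab r e 1 = lab r e' 1) (h2 : lab r e 2 = lab r e' 2) : e = e' := by
  rcases (lb_eq r e e').mp h1 with h | h
  · exact h
  · rcases (lc_eq r e e').mp h2 with h' | h'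
    · exact h'
    · exact absurd (congrArg Prod.snd (h.symm.trans h')) (pb_ne_pc _)

theorem V_pb (e : E r) (h : V r e) : V r (e.1, pb e.2) := by
  unfold V at *
  simpa [kd_pb] using h

theorem closed (e1 e2 e3 : E r) (h2 : V r e2)
    (h : lab r e1 0 + lab r e2 1 + lab r e3 2 = 0) :
    ∃ e, V r e ∧ lab r e 0 = lab r e1 0 ∧ lab r e 1 = lab r e2 1 ∧ lab r e 2 = lab r e3 2 := by
  have key : ∃ e, V r e ∧ lab r e 1 = lab r e2 1 ∧ lab r e 2 = lab r e3 2 := by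
    obtain ⟨i2, t2⟩ := e2
    obtain ⟨i3, t3⟩ := e3
    have h1 : tA e1.2 + tB t2 + (-tA t3 - tB t3) = 0 := congrArg Prod.fst h
    have h4 : (0 : ZMod (r + 2)) + ((i2 : ℕ) : ZMod (r + 2)) + -((i3 : ℕ) : ZMod (r + 2)) = 0 :=
      congrArg (fun g => g.2.2) h
    have h5 : i2 = i3 := Fin.ext (cast_inj r (by omega) (by omega) (by linear_combination h4))
    subst h5
    rcases tri8 t2 t3 _ (tA_mem e1.2) h1 with h | h | h | h
    · exact ⟨(i2, t2), h2, rfl, by rw [h]⟩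
    · exact ⟨(i2, t2), h2, rfl, ((lc_eq r _ _).mpr (Or.inr (by rw [h]))).symm⟩
    · exact ⟨(i2, pb t2), V_pb r _ h2, (lb_eq r _ _).mpr (Or.inr rfl), by rw [h]⟩
    · exact ⟨(i2, pb t2), V_pb r _ h2, (lb_eq r _ _).mpr (Or.inr rfl),
        ((lc_eq r _ _).mpr (Or.inr (by rw [h]))).symm⟩
  obtain ⟨e, hV, k1, k2⟩ := key
  refine ⟨e, hV, ?_, k1, k2⟩
  have := lab_sum r e
  rw [k1, k2] at this
  exact add_right_cancel (add_right_cancel (this.trans h.symm))

/-- the equations at the vertices -/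
def Eqs (c : E r → ℤ) : Prop := ∀ (k : Fin 3) (h : G r → ℤ), ∑ e, c e * h (lab r e k) = 0

theorem Eqs.fibre {r : ℕ} {c : E r → ℤ} (hc : Eqs r c) (k : Fin 3) (e₀ : E r) (S : Finset (E r))
    (hS : ∀ e, lab r e k = lab r e₀ k ↔ e ∈ S) : ∑ e ∈ S, c e = 0 := by
  classical
  have := hc k (fun g => if g = lab r e₀ k then 1 else 0)
  simp_rw [hS, mul_ite, mul_one, mul_zero] at this
  rwa [Finset.sum_ite_mem, Finset.univ_inter] at this

theorem Eqs.pb {r : ℕ} {c : E r → ℤ} (hc : Eqs r c) (i : Fin (r + 1)) (t : Fin 32) :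
    c (i, t) + c (i, pb t) = 0 := by
  have := hc.fibre 1 (i, t) {(i, t), (i, Claw3.pb t)} (fun e => by rw [lb_eq]; simp)
  rwa [Finset.sum_pair (fun h => pb_ne t (congrArg Prod.snd h).symm)] at this

theorem Eqs.pc {r : ℕ} {c : E r → ℤ} (hc : Eqs r c) (i : Fin (r + 1)) (t : Fin 32) :
    c (i, t) + c (i, pc t) = 0 := by
  have := hc.fibre 2 (i, t) {(i, t), (i, Claw3.pc t)} (fun e => by rw [lc_eq]; simp)
  rwa [Finset.sum_pair (fun h => pc_ne t (congrArg Prod.snd h).symm)] at this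

theorem tA0 : ∀ t : Fin 32, tA t = tA 0 ↔ t = 0 ∨ t = 2 ∨ t = 15 := by decide +kernel
theorem tA3 : ∀ t : Fin 32, tA t = tA 3 ↔ t = 3 ∨ t = 12 ∨ t = 14 ∨ t = 24 ∨ t = 29 := by
  decide +kernel

theorem Eqs.a1 {r : ℕ} {c : E r → ℤ} (hc : Eqs r c) (i : Fin (r + 1)) :
    c (i, 0) + c (i, 2) + c (i, 15) = 0 := by
  have := hc.fibre 0 (i, 0) {(i, 0), (i, 2), (i, 15)} (fun e => by
    obtain ⟨j, t⟩ := e
    rw [la_eq]
    simp only [tA0, Finset.mem_insert, Finset.mem_singleton, Prod.mk.injEq, Fin.ext_iff (a := j)]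
    have o0 : off 0 = 0 := rfl
    have o2 : off 2 = 0 := rfl
    have o15 : off 15 = 0 := rfl
    constructor
    · rintro ⟨rfl | rfl | rfl, h⟩ <;> simp <;> omega
    · rintro (⟨h, rfl⟩ | ⟨h, rfl⟩ | ⟨h, rfl⟩) <;> simp <;> omega)
  rw [Finset.sum_insert (by simp), Finset.sum_pair (by simp)] at this
  linarith

theorem Eqs.a0 {r : ℕ} {c : E r → ℤ} (hc : Eqs r c) :
    c (0, 3) + c (0, 24) + c (0, 29) = 0 := by
  have := hc.fibre 0 (0, 3) {(0, 3), (0, 24), (0, 29)} (fun e => by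
    obtain ⟨j, t⟩ := e
    rw [la_eq]
    simp only [tA3, Finset.mem_insert, Finset.mem_singleton, Prod.mk.injEq, Fin.ext_iff (a := j)]
    have o3 : off 3 = 0 := rfl
    have o12 : off 12 = 1 := rfl
    have o14 : off 14 = 1 := rfl
    have o24 : off 24 = 0 := rfl
    have o29 : off 29 = 0 := rfl
    have z : ((0 : Fin (r + 1)) : ℕ) = 0 := rfl
    constructor
    · rintro ⟨rfl | rfl | rfl | rfl | rfl, h⟩ <;> simp <;> omega
    · rintro (⟨h, rfl⟩ | ⟨h, rfl⟩ | ⟨h, rfl⟩) <;> simp <;> omega)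
  rw [Finset.sum_insert (by simp), Finset.sum_pair (by simp)] at this
  linarith

theorem Eqs.aS {r : ℕ} {c : E r → ℤ} (hc : Eqs r c) (i : Fin r) :
    c (i.succ, 3) + c (i.succ, 24) + c (i.succ, 29) + c (i.castSucc, 12) + c (i.castSucc, 14) = 0 := by
  have := hc.fibre 0 (i.succ, 3)
    {(i.succ, 3), (i.succ, 24), (i.succ, 29), (i.castSucc, 12), (i.castSucc, 14)} (fun e => by
    obtain ⟨j, t⟩ := e
    rw [la_eq]
    simp only [tA3, Finset.mem_insert, Finset.mem_singleton, Prod.mk.injEq, Fin.ext_iff (a := j),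
      Fin.val_succ, Fin.val_castSucc]
    have o3 : off 3 = 0 := rfl
    have o12 : off 12 = 1 := rfl
    have o14 : off 14 = 1 := rfl
    have o24 : off 24 = 0 := rfl
    have o29 : off 29 = 0 := rfl
    constructor
    · rintro ⟨rfl | rfl | rfl | rfl | rfl, h⟩ <;> simp <;> omega
    · rintro (⟨h, rfl⟩ | ⟨h, rfl⟩ | ⟨h, rfl⟩ | ⟨h, rfl⟩ | ⟨h, rfl⟩) <;> simp <;> omega)
  rw [Finset.sum_insert (by simp), Finset.sum_insert (by simp), Finset.sum_insert (by simp),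
    Finset.sum_pair (by simp)] at this
  linarith

theorem Eqs.sign {r : ℕ} {c : E r → ℤ} (hc : Eqs r c) (i : Fin (r + 1)) :
    (c (i, 2) = c (i, 0) ∧ c (i, 3) = -c (i, 0) ∧ c (i, 14) = c (i, 12) ∧ c (i, 15) = -c (i, 12) ∧
      c (i, 29) = -c (i, 28)) ∧
    (c (i, 0) = 0 → c (i, 12) = 0 → c (i, 24) = 0 → c (i, 28) = 0 → ∀ t, c (i, t) = 0) := by
  have b0 : c (i, 0) + c (i, 1) = 0 := hc.pb i 0
  have b2 : c (i, 2) + c (i, 3) = 0 := hc.pb i 2
  have b4 : c (i, 4) + c (i, 5) = 0 := hc.pb i 4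
  have b6 : c (i, 6) + c (i, 7) = 0 := hc.pb i 6
  have b8 : c (i, 8) + c (i, 9) = 0 := hc.pb i 8
  have b10 : c (i, 10) + c (i, 11) = 0 := hc.pb i 10
  have b12 : c (i, 12) + c (i, 13) = 0 := hc.pb i 12
  have b14 : c (i, 14) + c (i, 15) = 0 := hc.pb i 14
  have b16 : c (i, 16) + c (i, 17) = 0 := hc.pb i 16
  have b18 : c (i, 18) + c (i, 19) = 0 := hc.pb i 18
  have b20 : c (i, 20) + c (i, 21) = 0 := hc.pb i 20
  have b22 : c (i, 22) + c (i, 23) = 0 := hc.pb i 22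
  have b24 : c (i, 24) + c (i, 25) = 0 := hc.pb i 24
  have b26 : c (i, 26) + c (i, 27) = 0 := hc.pb i 26
  have b28 : c (i, 28) + c (i, 29) = 0 := hc.pb i 28
  have b30 : c (i, 30) + c (i, 31) = 0 := hc.pb i 30
  have c1 : c (i, 1) + c (i, 2) = 0 := hc.pc i 1
  have c3 : c (i, 3) + c (i, 4) = 0 := hc.pc i 3
  have c5 : c (i, 5) + c (i, 6) = 0 := hc.pc i 5
  have c7 : c (i, 7) + c (i, 8) = 0 := hc.pc i 7
  have c9 : c (i, 9) + c (i, 10) = 0 := hc.pc i 9
  have c13 : c (i, 13) + c (i, 14) = 0 := hc.pc i 13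
  have c15 : c (i, 15) + c (i, 16) = 0 := hc.pc i 15
  have c17 : c (i, 17) + c (i, 18) = 0 := hc.pc i 17
  have c19 : c (i, 19) + c (i, 20) = 0 := hc.pc i 19
  have c21 : c (i, 21) + c (i, 22) = 0 := hc.pc i 21
  have c25 : c (i, 25) + c (i, 26) = 0 := hc.pc i 25
  have c29 : c (i, 29) + c (i, 30) = 0 := hc.pc i 29
  refine ⟨by omega, fun h0 h12 h24 h28 t => ?_⟩
  fin_cases t <;> simp only [Fin.zero_eta, Fin.mk_one, Fin.reduceFinMk] <;> omega

theorem ker_zero (hr : 1 ≤ r) (c : E r → ℤ) (hV : ∀ e, ¬ V r e → c e = 0) (hc : Eqs r c) (D : ℕ)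
    (hD : D < 4 ^ r) (hb : ∀ e, |c e| ≤ D) : ∀ e, c e = 0 := by
  have k0 : kd 0 = 0 := rfl
  have k12 : kd 12 = 0 := rfl
  have k24 : kd 24 = 1 := rfl
  have k28 : kd 28 = 2 := rfl
  have v0 : c (Fin.last r, 0) = 0 := hV _ (by simp [V, k0])
  have v24 : ∀ i : Fin (r + 1), i.val ≠ 0 → c (i, 24) = 0 := fun i hi => hV _ (by simp [V, k24]; exact fun h => hi (by simp [h]))
  have v28 : ∀ i : Fin (r + 1), i.val ≠ r → c (i, 28) = 0 := fun i hi => hV _ (by simp [V, k28, hi])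
  have e12 : ∀ i, c (i, 12) = 2 * c (i, 0) := fun i => by
    have := hc.a1 i
    have := (hc.sign i).1
    omega
  have e0 : c (0, 0) = c (0, 24) := by
    have := hc.a0
    have := (hc.sign 0).1
    have := v28 0 (by simp; omega)
    omega
  have eS : ∀ i : Fin r, c (i.succ, 0) + c (i.succ, 28) = 4 * c (i.castSucc, 0) := fun i => by
    have := hc.aS i
    have := (hc.sign i.succ).1
    have := (hc.sign i.castSucc).1
    have := v24 i.succ (by simp)
    have := e12 i.castSucc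
    omega
  have ind : ∀ i : Fin (r + 1), c (i, 0) + c (i, 28) = 4 ^ i.val * c (0, 0) := by
    intro i
    induction i using Fin.induction with
    | zero => rw [v28 0 (by simp; omega)]; simp
    | succ i ih =>
      rw [eS i, Fin.val_succ, pow_succ]
      rw [v28 i.castSucc (by simp; omega), add_zero, Fin.val_castSucc] at ih
      rw [ih]; ring
  have z0 : c (0, 0) = 0 := by
    have h1 := ind (Fin.last r)
    rw [v0, zero_add, Fin.val_last] at h1
    have h2 := hb (Fin.last r, 28)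
    rw [h1, abs_mul, abs_of_pos (by positivity)] at h2
    by_contra hne
    have h3 : 1 ≤ |c (0, 0)| := Int.one_le_abs hne
    have h4 : (D : ℤ) < 4 ^ r := by exact_mod_cast hD
    have h5 : (0 : ℤ) < 4 ^ r := by positivity
    nlinarith
  rintro ⟨i, t⟩
  have h1 := ind i
  rw [z0, mul_zero] at h1
  have hi0 : c (i, 0) = 0 ∧ c (i, 28) = 0 := by
    by_cases hi : i.val = r
    · have : i = Fin.last r := Fin.ext hi
      subst this
      omega
    · have := v28 i hi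
      omega
  refine (hc.sign i).2 hi0.1 (by rw [e12, hi0.1]; rfl) ?_ hi0.2 t
  by_cases hi : i.val = 0
  · have : i = 0 := Fin.ext hi
    subst this
    omega
  · exact v24 i hi

/-- the kernel vector -/
def lam (e : E r) : ℤ := if V r e then cf e.2 * 4 ^ e.1.val else 0

theorem invol_sum (p : Fin 32 → Fin 32) (hp : ∀ t, p (p t) = t) (F : E r → ℤ)
    (hF : ∀ e : E r, F (e.1, p e.2) = -F e) : ∑ e, F e = 0 := by
  have h1 : ∑ e, F e = ∑ e : E r, F (e.1, p e.2) :=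
    (Equiv.sum_comp (Function.Involutive.toPerm (fun e : E r => (e.1, p e.2))
      (fun e => by simp [hp])) F).symm
  simp_rw [hF] at h1
  rw [Finset.sum_neg_distrib] at h1
  omega

theorem sum32 (F : Fin 32 → ℤ) : ∑ t, F t = F 0 + F 1 + F 2 + F 3 + F 4 + F 5 + F 6 + F 7 + F 8 +
    F 9 + F 10 + F 11 + F 12 + F 13 + F 14 + F 15 + F 16 + F 17 + F 18 + F 19 + F 20 + F 21 + F 22 +
    F 23 + F 24 + F 25 + F 26 + F 27 + F 28 + F 29 + F 30 + F 31 := by
  simp only [Fin.sum_univ_castSucc, Fin.sum_univ_zero, zero_add]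
  rfl

theorem lam_eqs : Eqs r (lam r) := by
  intro k h
  fin_cases k
  · let Z : ℕ → ℤ := fun l => h (93, (l : ZMod (r + 2)), 0) + h (15, (l : ZMod (r + 2)), 0) -
      h (42, (l : ZMod (r + 2)), 0) - h (66, (l : ZMod (r + 2)), 0)
    have key : ∀ i : Fin (r + 1), ∑ t, lam r (i, t) * h (lab r (i, t) 0) =
        (if i.val < r then 4 ^ (i.val + 1) * Z (i.val + 1) - 4 ^ i.val * Z i.val else 0) +
        (if i.val = 0 then Z 0 else 0) - (if i.val = r then 4 ^ r * Z r else 0) := by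
      intro i
      have hl : ∀ t, lam r (i, t) * h (lab r (i, t) 0) =
          (if kd t = 0 then (if i.val < r then 1 else 0) else
            if kd t = 1 then (if i.val = 0 then 1 else 0) else (if i.val = r then 1 else 0)) *
          (cf t * 4 ^ i.val * h (tA t, ((i + off t : ℕ) : ZMod (r + 2)), 0)) := by
        intro t
        have : kd t = 0 ∨ kd t = 1 ∨ kd t = 2 := by unfold kd; split_ifs <;> simp
        show lam r (i, t) * h (tA t, ((i + off t : ℕ) : ZMod (r + 2)), 0) = _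
        rcases this with h | h | h <;> simp [lam, V, h]
      simp_rw [hl]
      rw [sum32]
      show _ * (1 * 4 ^ i.val * h (75, ((i + 0 : ℕ) : ZMod (r + 2)), 0)) +
        _ * (-1 * 4 ^ i.val * h (63, ((i + 0 : ℕ) : ZMod (r + 2)), 0)) +
        _ * (1 * 4 ^ i.val * h (75, ((i + 0 : ℕ) : ZMod (r + 2)), 0)) +
        _ * (-1 * 4 ^ i.val * h (93, ((i + 0 : ℕ) : ZMod (r + 2)), 0)) +
        _ * (1 * 4 ^ i.val * h (42, ((i + 0 : ℕ) : ZMod (r + 2)), 0)) +
        _ * (-1 * 4 ^ i.val * h (52, ((i + 0 : ℕ) : ZMod (r + 2)), 0)) +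
        _ * (1 * 4 ^ i.val * h (40, ((i + 0 : ℕ) : ZMod (r + 2)), 0)) +
        _ * (-1 * 4 ^ i.val * h (52, ((i + 0 : ℕ) : ZMod (r + 2)), 0)) +
        _ * (1 * 4 ^ i.val * h (40, ((i + 0 : ℕ) : ZMod (r + 2)), 0)) +
        _ * (-1 * 4 ^ i.val * h (15, ((i + 0 : ℕ) : ZMod (r + 2)), 0)) +
        _ * (1 * 4 ^ i.val * h (66, ((i + 0 : ℕ) : ZMod (r + 2)), 0)) +
        _ * (-1 * 4 ^ i.val * h (63, ((i + 0 : ℕ) : ZMod (r + 2)), 0)) +
        _ * (2 * 4 ^ i.val * h (93, ((i + 1 : ℕ) : ZMod (r + 2)), 0)) +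
        _ * (-2 * 4 ^ i.val * h (42, ((i + 1 : ℕ) : ZMod (r + 2)), 0)) +
        _ * (2 * 4 ^ i.val * h (93, ((i + 1 : ℕ) : ZMod (r + 2)), 0)) +
        _ * (-2 * 4 ^ i.val * h (75, ((i + 0 : ℕ) : ZMod (r + 2)), 0)) +
        _ * (2 * 4 ^ i.val * h (63, ((i + 0 : ℕ) : ZMod (r + 2)), 0)) +
        _ * (-2 * 4 ^ i.val * h (66, ((i + 1 : ℕ) : ZMod (r + 2)), 0)) +
        _ * (2 * 4 ^ i.val * h (15, ((i + 1 : ℕ) : ZMod (r + 2)), 0)) +
        _ * (-2 * 4 ^ i.val * h (66, ((i + 1 : ℕ) : ZMod (r + 2)), 0)) +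
        _ * (2 * 4 ^ i.val * h (15, ((i + 1 : ℕ) : ZMod (r + 2)), 0)) +
        _ * (-2 * 4 ^ i.val * h (40, ((i + 0 : ℕ) : ZMod (r + 2)), 0)) +
        _ * (2 * 4 ^ i.val * h (52, ((i + 0 : ℕ) : ZMod (r + 2)), 0)) +
        _ * (-2 * 4 ^ i.val * h (42, ((i + 1 : ℕ) : ZMod (r + 2)), 0)) +
        _ * (1 * 4 ^ i.val * h (93, ((i + 0 : ℕ) : ZMod (r + 2)), 0)) +
        _ * (-1 * 4 ^ i.val * h (42, ((i + 0 : ℕ) : ZMod (r + 2)), 0)) +
        _ * (1 * 4 ^ i.val * h (15, ((i + 0 : ℕ) : ZMod (r + 2)), 0)) +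
        _ * (-1 * 4 ^ i.val * h (66, ((i + 0 : ℕ) : ZMod (r + 2)), 0)) +
        _ * (1 * 4 ^ i.val * h (42, ((i + 0 : ℕ) : ZMod (r + 2)), 0)) +
        _ * (-1 * 4 ^ i.val * h (93, ((i + 0 : ℕ) : ZMod (r + 2)), 0)) +
        _ * (1 * 4 ^ i.val * h (66, ((i + 0 : ℕ) : ZMod (r + 2)), 0)) +
        _ * (-1 * 4 ^ i.val * h (15, ((i + 0 : ℕ) : ZMod (r + 2)), 0)) = _
      simp only [kd, Z, add_zero]
      norm_num
      split_ifs with h1 h2 h3 h3 h2 h3 h3 <;> simp_all <;> ring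
    show ∑ e, lam r e * h (lab r e 0) = 0
    rw [Fintype.sum_prod_type]
    simp_rw [key]
    rw [Fin.sum_univ_eq_sum_range (fun i =>
        (if i < r then 4 ^ (i + 1) * Z (i + 1) - 4 ^ i * Z i else 0) +
        (if i = 0 then Z 0 else 0) - (if i = r then 4 ^ r * Z r else 0)) (r + 1)]
    rw [Finset.sum_sub_distrib, Finset.sum_add_distrib, Finset.sum_range_succ, if_neg (lt_irrefl r),
      Finset.sum_ite_of_true (fun x hx => Finset.mem_range.mp hx),
      Finset.sum_range_sub (fun i => 4 ^ i * Z i)]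
    simp
  · apply invol_sum r pb pb_pb
    intro e
    have h1 : lab r (e.1, pb e.2) 1 = lab r e 1 := (lb_eq r _ _).mpr (Or.inr rfl)
    show lam r (e.1, pb e.2) * h (lab r (e.1, pb e.2) 1) = -(lam r e * h (lab r e 1))
    rw [h1]
    have h2 : V r (e.1, pb e.2) ↔ V r e := by simp [V, kd_pb]
    simp only [lam, h2, cf_pb]
    split_ifs <;> ring
  · apply invol_sum r pc pc_pc
    intro e
    have h1 : lab r (e.1, pc e.2) 2 = lab r e 2 := (lc_eq r _ _).mpr (Or.inr rfl)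
    show lam r (e.1, pc e.2) * h (lab r (e.1, pc e.2) 2) = -(lam r e * h (lab r e 2))
    rw [h1]
    have h2 : V r (e.1, pc e.2) ↔ V r e := by simp [V, kd_pc]
    simp only [lam, h2, cf_pc]
    split_ifs <;> ring

/-- The main statement, for any encoding of the flows of the tripod. -/
theorem main (hr : 1 ≤ r) {σ : Type} (π : σ → Fin 3 → G r) (hπ : Function.Injective π)
    (hsum : ∀ x, π x 0 + π x 1 + π x 2 = 0)
    (hsur : ∀ g : Fin 3 → G r, g 0 + g 1 + g 2 = 0 → ∃ x, π x = g) :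
    ∃ (z : σ → ℂ) (f : MvPolynomial σ ℂ) (x : σ), z x = 1 ∧
      phi (fun x i => (i, π x i)) f = 0 ∧ eval z f = 1 ∧
      ∀ q, phi (fun x i => (i, π x i)) q = 0 → q.totalDegree < 4 ^ r → eval z q = 0 := by
  classical
  choose s hs using fun e : E r => hsur (lab r e) (lab_sum r e)
  have s_inj : Function.Injective s := fun e e' h => by
    have : lab r e = lab r e' := by rw [← hs, ← hs, h]
    exact lab_inj r e e' (congrFun this 1) (congrFun this 2)
  have hiff : ∀ c : E r → ℤ, KerEq (fun x i => (i, π x i)) s c ↔ Eqs r c := by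
    intro c
    constructor
    · intro h k g
      have := h (fun t => if t.1 = k then g t.2 else 0)
      simp only [hs, Finset.sum_ite_eq', Finset.mem_univ, if_true] at this
      exact this
    · intro h g
      simp only [hs, Finset.mul_sum]
      rw [Finset.sum_comm]
      exact Finset.sum_eq_zero fun k _ => h k (fun x => g (k, x))
  have k24 : kd 24 = 1 := rfl
  have k25 : kd 25 = 1 := rfl
  have c24 : cf 24 = 1 := rfl
  have c25 : cf 25 = -1 := rfl
  obtain ⟨z, f, hz, h1, hf, hzf⟩ := exists_binomial (fun x i => (i, π x i)) s s_inj (V r) (lam r)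
    (fun e h => if_neg h) ((hiff _).mpr (lam_eqs r)) (0, 24) (by simp [lam, V, k24, c24])
    (0, 25) (by simp [lam, V, k25, c25])
  refine ⟨z, f, s (0, 24), h1, hf, hzf, fun q hq hD => ?_⟩
  refine eval_eq_zero (fun x i => (i, π x i)) s s_inj (V r) q.totalDegree ?_ ?_ z hz q hq le_rfl
  · intro x hx
    have hx' : ∀ i, ∃ e, V r e ∧ lab r e i = π x i := by
      intro i
      obtain ⟨e, he, j, hj⟩ := hx i
      have h1 : j = i := congrArg Prod.fst hj
      subst h1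
      refine ⟨e, he, ?_⟩
      rw [← hs]
      exact congrArg Prod.snd hj
    obtain ⟨e0, _, h0⟩ := hx' 0
    obtain ⟨e1, v1, h1⟩ := hx' 1
    obtain ⟨e2, _, h2⟩ := hx' 2
    obtain ⟨e, he, k0, k1, k2⟩ := closed r e0 e1 e2 v1 (by rw [h0, h1, h2]; exact hsum x)
    refine ⟨e, he, hπ ?_⟩
    rw [hs]
    funext i
    fin_cases i
    · exact (k0.trans h0).symm
    · exact (k1.trans h1).symm
    · exact (k2.trans h2).symm
  · intro c hV hc hb
    exact ker_zero r hr c hV ((hiff c).mp hc) _ hD hb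

theorem card_G : Fintype.card (G r) = 98 * (r + 2) ^ 2 := by
  simp only [Fintype.card_prod, ZMod.card]
  ring

theorem exists_r (Q : Polynomial ℕ) : ∃ r, 1 ≤ r ∧ Q.eval (98 * (r + 2) ^ 2) < 4 ^ r := by
  set d := Q.natDegree
  set C := ∑ i ∈ Finset.range (d + 1), Q.coeff i
  have hb : ∀ x : ℕ, 1 ≤ x → Q.eval x ≤ C * x ^ d := by
    intro x hx
    rw [Polynomial.eval_eq_sum_range, Finset.sum_mul]
    refine Finset.sum_le_sum fun i hi => Nat.mul_le_mul_left _ (Nat.pow_le_pow_right hx ?_)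
    have := Finset.mem_range.mp hi
    omega
  have ht := tendsto_pow_const_div_const_pow_of_one_lt (2 * d) (r := 4) (by norm_num)
  have hpos : (0 : ℝ) < 1 / (16 * (C * 98 ^ d + 1)) := by positivity
  obtain ⟨n, hn, hn3⟩ := ((ht.eventually (gt_mem_nhds hpos)).and (Filter.eventually_ge_atTop 3)).exists
  obtain ⟨r, rfl⟩ : ∃ r, n = r + 2 := ⟨n - 2, by omega⟩
  refine ⟨r, by omega, lt_of_le_of_lt (hb _ (Nat.succ_le_of_lt (by positivity))) ?_⟩
  rw [div_lt_div_iff₀ (by positivity) (by positivity)] at hn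
  have h1 : ((r + 2 : ℕ) : ℝ) ^ (2 * d) * (16 * (C * 98 ^ d + 1)) < 16 * 4 ^ r := by
    calc _ < 1 * (4 : ℝ) ^ (r + 2) := hn
      _ = 16 * 4 ^ r := by ring
  have h2 : (r + 2) ^ (2 * d) * (16 * (C * 98 ^ d + 1)) < 16 * 4 ^ r := by exact_mod_cast h1
  rw [mul_pow, ← pow_mul]
  have h3 : 0 < (r + 2) ^ (2 * d) := by positivity
  nlinarith

end Pool.Agent.H101Z.Claw3
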