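import Mathlib

set_option autoImplicit false

namespace Pool.Agent.H101Z.Face

open MvPolynomial

variable {σ τ ι E : Type} [Fintype ι]

/-- exponent vector of the image of a variable -/
noncomputable def wv (κ : σ → ι → τ) (x : σ) : τ →₀ ℕ := ∑ i, Finsupp.single (κ x i) 1

/-- the monomial map -/
noncomputable def phi (κ : σ → ι → τ) : MvPolynomial σ ℂ →ₐ[ℂ] MvPolynomial τ ℂ :=
  aeval (fun x => ∏ i, (X (κ x i) : MvPolynomial τ ℂ))

theorem prod_X_eq (κ : σ → ι → τ) (x : σ) :
    ∏ i, (X (κ x i) : MvPolynomial τ ℂ) = monomial (wv κ x) 1 := by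
  unfold wv
  rw [monomial_sum_one]
  rfl

theorem phi_monomial (κ : σ → ι → τ) (m : σ →₀ ℕ) (a : ℂ) :
    phi κ (monomial m a) = monomial (Finsupp.weight (wv κ) m) a := by
  unfold phi
  rw [aeval_monomial, Finsupp.weight_apply, Finsupp.sum, Finsupp.prod]
  simp_rw [prod_X_eq, monomial_pow, one_pow]
  rw [← monomial_sum_one, algebraMap_eq, C_mul_monomial, mul_one]

theorem weight_weight (κ : σ → ι → τ) (h : τ → ℤ) (m : σ →₀ ℕ) :
    Finsupp.weight h (Finsupp.weight (wv κ) m) = Finsupp.weight (fun x => ∑ i, h (κ x i)) m := by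
  induction m using Finsupp.induction_linear with
  | zero => simp
  | add f g hf hg => simp [hf, hg]
  | single a b =>
    rw [Finsupp.weight_single, Finsupp.weight_single, map_nsmul]
    congr 1
    unfold wv
    rw [map_sum]
    simp [Finsupp.weight_single]

theorem weight_eq_sum [Fintype E] (s : E → σ) (hs : Function.Injective s) (g : σ → ℤ)
    (m : σ →₀ ℕ) (hm : ∀ x ∈ m.support, ∃ e, x = s e) :
    Finsupp.weight g m = ∑ e, (m (s e) : ℤ) * g (s e) := by
  classical
  rw [Finsupp.weight_apply, Finsupp.sum]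
  have h1 : ∑ e, (m (s e) : ℤ) * g (s e) = ∑ x ∈ Finset.univ.image s, (m x : ℤ) * g x := by
    rw [Finset.sum_image (fun a _ b _ h => hs h)]
  rw [h1]
  simp_rw [nsmul_eq_mul]
  apply Finset.sum_subset
  · intro x hx
    obtain ⟨e, rfl⟩ := hm x hx
    simp
  · intro x _ hx
    simp [Finsupp.notMem_support_iff.mp hx]

theorem mem_support_weight (κ : σ → ι → τ) (m : σ →₀ ℕ) (t : τ) :
    t ∈ (Finsupp.weight (wv κ) m).support ↔ ∃ x ∈ m.support, ∃ i, κ x i = t := by
  classical
  rw [Finsupp.mem_support_iff, Finsupp.weight_apply, Finsupp.sum, Finsupp.finsetSum_apply]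
  rw [Ne, Finset.sum_eq_zero_iff]
  push Not
  refine exists_congr fun x => and_congr_right fun hx => ?_
  rw [Finsupp.smul_apply, smul_eq_mul, mul_ne_zero_iff]
  have hx' := Finsupp.mem_support_iff.mp hx
  simp only [hx', ne_eq, not_false_eq_true, true_and]
  unfold wv
  rw [Finsupp.finsetSum_apply, Finset.sum_eq_zero_iff]
  push Not
  simp [Finsupp.single_apply]

/-- the linear equations of the face -/
def KerEq [Fintype E] (κ : σ → ι → τ) (s : E → σ) (c : E → ℤ) : Prop :=
  ∀ h : τ → ℤ, ∑ e, c e * ∑ i, h (κ (s e) i) = 0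

theorem fibre_eq [Fintype E] (κ : σ → ι → τ) (s : E → σ) (hs : Function.Injective s)
    (V : E → Prop) (D : ℕ)
    (hclosed : ∀ x, (∀ i, ∃ e, V e ∧ ∃ j, κ (s e) j = κ x i) → ∃ e, V e ∧ x = s e)
    (hker : ∀ c : E → ℤ, (∀ e, ¬ V e → c e = 0) → KerEq κ s c → (∀ e, |c e| ≤ D) → ∀ e, c e = 0)
    (m m' : σ →₀ ℕ) (hm : ∀ x ∈ m.support, ∃ e, V e ∧ x = s e)
    (hD : ∀ x, m x ≤ D) (hD' : ∀ x, m' x ≤ D)
    (hW : Finsupp.weight (wv κ) m' = Finsupp.weight (wv κ) m) : m' = m := by
  have hm' : ∀ x ∈ m'.support, ∃ e, V e ∧ x = s e := by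
    intro x hx
    apply hclosed
    intro i
    have : κ x i ∈ (Finsupp.weight (wv κ) m').support :=
      (mem_support_weight κ m' _).mpr ⟨x, hx, i, rfl⟩
    rw [hW, mem_support_weight] at this
    obtain ⟨y, hy, j, hj⟩ := this
    obtain ⟨e, he, rfl⟩ := hm y hy
    exact ⟨e, he, j, hj⟩
  have hz : ∀ (n : σ →₀ ℕ), (∀ x ∈ n.support, ∃ e, V e ∧ x = s e) → ∀ e, ¬ V e → n (s e) = 0 := by
    intro n hn e he
    by_contra h
    obtain ⟨e', he', h'⟩ := hn _ (Finsupp.mem_support_iff.mpr h)
    exact he (hs h' ▸ he')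
  have key := hker (fun e => (m (s e) : ℤ) - m' (s e))
    (fun e he => by simp [hz m hm e he, hz m' hm' e he])
    (by
      intro h
      have h1 := weight_weight κ h m
      have h2 := weight_weight κ h m'
      rw [hW, h1, weight_eq_sum s hs _ m (fun x hx => (hm x hx).imp fun _ h => h.2),
        weight_eq_sum s hs _ m' (fun x hx => (hm' x hx).imp fun _ h => h.2)] at h2
      simp_rw [sub_mul]
      rw [Finset.sum_sub_distrib, h2, sub_self])
    (fun e => by
      have := hD (s e)
      have := hD' (s e)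
      rw [abs_le]
      constructor <;> omega)
  ext x
  by_cases h1 : x ∈ m.support
  · obtain ⟨e, _, rfl⟩ := hm x h1
    have := key e
    omega
  · by_cases h2 : x ∈ m'.support
    · obtain ⟨e, _, rfl⟩ := hm' x h2
      have := key e
      omega
    · rw [Finsupp.notMem_support_iff.mp h1, Finsupp.notMem_support_iff.mp h2]

theorem le_totalDegree' (q : MvPolynomial σ ℂ) (m : σ →₀ ℕ) (hm : m ∈ q.support) (x : σ) :
    m x ≤ q.totalDegree := by
  refine le_trans ?_ (le_totalDegree hm)
  by_cases hx : x ∈ m.support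
  · exact Finset.single_le_sum (f := fun y => m y) (fun _ _ => Nat.zero_le _) hx
  · rw [Finsupp.notMem_support_iff.mp hx]; exact Nat.zero_le _

/-- every low degree element of the toric ideal vanishes on the coordinate subspace of the face -/
theorem eval_eq_zero [Fintype E] (κ : σ → ι → τ) (s : E → σ) (hs : Function.Injective s)
    (V : E → Prop) (D : ℕ)
    (hclosed : ∀ x, (∀ i, ∃ e, V e ∧ ∃ j, κ (s e) j = κ x i) → ∃ e, V e ∧ x = s e)
    (hker : ∀ c : E → ℤ, (∀ e, ¬ V e → c e = 0) → KerEq κ s c → (∀ e, |c e| ≤ D) → ∀ e, c e = 0)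
    (z : σ → ℂ) (hz : ∀ x, z x ≠ 0 → ∃ e, V e ∧ x = s e)
    (q : MvPolynomial σ ℂ) (hq : phi κ q = 0) (hD : q.totalDegree ≤ D) : eval z q = 0 := by
  classical
  rw [eval_eq]
  apply Finset.sum_eq_zero
  intro m hm
  by_cases hsupp : ∀ x ∈ m.support, z x ≠ 0
  · exfalso
    have h1 : coeff (Finsupp.weight (wv κ) m) (phi κ q) = coeff m q := by
      conv_lhs => rw [q.as_sum, map_sum, coeff_sum]
      simp_rw [phi_monomial, coeff_monomial]
      rw [Finset.sum_eq_single m]
      · simp
      · intro m' hm' hne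
        rw [if_neg]
        intro hW
        exact hne (fibre_eq κ s hs V D hclosed hker m m' (fun x hx => hz x (hsupp x hx))
          (fun x => (le_totalDegree' q m hm x).trans hD)
          (fun x => (le_totalDegree' q m' hm' x).trans hD) hW)
      · intro h; exact absurd hm h
    rw [hq, coeff_zero] at h1
    exact (mem_support_iff.mp hm) h1.symm
  · push Not at hsupp
    obtain ⟨x, hx, hx0⟩ := hsupp
    rw [Finset.prod_eq_zero hx, mul_zero]
    rw [hx0]
    exact zero_pow (Finsupp.mem_support_iff.mp hx)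

/-- a kernel vector gives an element of the toric ideal not vanishing at a point of the face -/
theorem exists_binomial [Fintype E] (κ : σ → ι → τ) (s : E → σ) (hs : Function.Injective s)
    (V : E → Prop) (l : E → ℤ) (hV : ∀ e, ¬ V e → l e = 0) (hl : KerEq κ s l)
    (e₀ : E) (h₀ : 0 < l e₀) (e₁ : E) (h₁ : l e₁ < 0) :
    ∃ (z : σ → ℂ) (f : MvPolynomial σ ℂ), (∀ x, z x ≠ 0 → ∃ e, V e ∧ x = s e) ∧ z (s e₀) = 1 ∧
      phi κ f = 0 ∧ eval z f = 1 := by
  classical
  let mp : σ →₀ ℕ := ∑ e, Finsupp.single (s e) (l e).toNat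
  let mn : σ →₀ ℕ := ∑ e, Finsupp.single (s e) (-l e).toNat
  have happ : ∀ (u : E → ℕ) (e : E), (∑ e', Finsupp.single (s e') (u e') : σ →₀ ℕ) (s e) = u e := by
    intro u e
    rw [Finsupp.finsetSum_apply, Finset.sum_eq_single e]
    · simp
    · intro b _ hb
      rw [Finsupp.single_apply, if_neg (fun h => hb (hs h))]
    · simp
  have hsup : ∀ (u : E → ℕ) (x : σ), x ∈ (∑ e', Finsupp.single (s e') (u e') : σ →₀ ℕ).support →
      ∃ e, x = s e := by
    intro u x hx
    by_contra hcon
    push Not at hcon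
    apply Finsupp.mem_support_iff.mp hx
    rw [Finsupp.finsetSum_apply]
    apply Finset.sum_eq_zero
    intro e _
    rw [Finsupp.single_apply, if_neg (fun h => hcon e h.symm)]
  let z : σ → ℂ := fun x => if ∃ e, 0 < l e ∧ x = s e then 1 else 0
  refine ⟨z, monomial mp 1 - monomial mn 1, ?_, ?_, ?_, ?_⟩
  · intro x hx
    by_cases h : ∃ e, 0 < l e ∧ x = s e
    · obtain ⟨e, he, rfl⟩ := h
      refine ⟨e, ?_, rfl⟩
      by_contra hv
      rw [hV e hv] at he
      exact lt_irrefl _ he
    · exact absurd (if_neg h) hx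
  · exact if_pos ⟨e₀, h₀, rfl⟩
  · rw [map_sub, phi_monomial, phi_monomial, sub_eq_zero]
    have hW : Finsupp.weight (wv κ) mp = Finsupp.weight (wv κ) mn := ?_
    · rw [hW]
    ext t
    have h1 := weight_weight κ (Pi.single t 1) mp
    have h2 := weight_weight κ (Pi.single t 1) mn
    have hs1 : ∀ u : τ →₀ ℕ, Finsupp.weight (Pi.single t (1 : ℤ) : τ → ℤ) u = (u t : ℤ) := by
      intro u
      induction u using Finsupp.induction_linear with
      | zero => simp
      | add f g hf hg => simp [hf, hg]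
      | single a b =>
        rw [Finsupp.weight_single, Finsupp.single_apply, Pi.single_apply]
        split_ifs <;> simp
    rw [hs1] at h1 h2
    rw [weight_eq_sum s hs _ mp (hsup _)] at h1
    rw [weight_eq_sum s hs _ mn (hsup _)] at h2
    have h3 := hl (Pi.single t 1)
    have h4 : ∀ e, l e = (mp (s e) : ℤ) - (mn (s e) : ℤ) := by
      intro e
      simp only [mp, mn, happ]
      omega
    simp_rw [h4, sub_mul] at h3
    rw [Finset.sum_sub_distrib, ← h1, ← h2, sub_eq_zero] at h3
    exact_mod_cast h3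
  · rw [map_sub, eval_monomial, eval_monomial, one_mul, one_mul]
    have hp : (mp.prod fun n e => z n ^ e) = 1 := by
      apply Finset.prod_eq_one
      intro x hx
      obtain ⟨e, rfl⟩ := hsup _ x hx
      have hx' := Finsupp.mem_support_iff.mp hx
      simp only [mp, happ] at hx'
      have : z (s e) = 1 := if_pos ⟨e, by omega, rfl⟩
      simp [this]
    have hn : (mn.prod fun n e => z n ^ e) = 0 := by
      have hx : s e₁ ∈ mn.support := by
        rw [Finsupp.mem_support_iff]
        simp only [mn, happ]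
        omega
      apply Finset.prod_eq_zero hx
      have : z (s e₁) = 0 := by
        apply if_neg
        rintro ⟨e, he, h⟩
        rw [← hs h] at he
        omega
      simp only [this]
      exact zero_pow (Finsupp.mem_support_iff.mp hx)
    rw [hp, hn, sub_zero]

end Pool.Agent.H101Z.Face
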