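import Pool.Agent.H101Z.THMCDefs

set_option autoImplicit false

namespace Pool.Agent.H101Z.THMC

open MvPolynomial

/-- arcs of the digraph with their certificate values -/
def arcs : List (ℕ × ℕ × ℕ) :=
  [(0, 2, 14), (0, 3, 29), (0, 4, 4), (0, 5, 29), (6, 1, 20), (7, 1, 0), (2, 8, 16), (2, 9, 1),
   (8, 9, 0), (9, 10, 15), (10, 7, 15), (2, 11, 28), (3, 12, 19), (11, 12, 19), (12, 13, 13),
   (13, 6, 28), (3, 14, 1), (3, 15, 1), (14, 15, 0), (15, 16, 0), (16, 7, 0), (4, 17, 6),
   (4, 18, 21), (17, 18, 20), (18, 19, 5), (19, 6, 5), (4, 20, 28), (5, 21, 29), (20, 21, 29),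
   (21, 22, 3), (22, 7, 28), (5, 23, 1), (5, 24, 1), (23, 24, 0), (24, 25, 0), (25, 7, 0)]

def bad (i j : Fin 26) : ℕ := if arcs.any (fun a => a.1 == i.val && a.2.1 == j.val) then 0 else 1

def cert (i j : Fin 26) : ℕ :=
  ((arcs.filter (fun a => a.1 == i.val && a.2.1 == j.val)).map (fun a => a.2.2)).sum

theorem cert_ok : ∀ a b : Fin 26, bad a b = 0 → ∀ c : Fin 26, bad b c = 0 → ∀ d : Fin 26,
    bad c d = 0 → (cert a b + cert b c + cert c d) % 30 ≤ 1 := by decide +kernel

abbrev W : Type := Word 26 4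

/-- sum of an arc function along a word -/
def along (c : Fin 26 → Fin 26 → ℕ) (w : W) : ℕ :=
  c (w.1 0) (w.1 1) + c (w.1 1) (w.1 2) + c (w.1 2) (w.1 3)

theorem design_eq (p : Arc 26) (w : W) : design p w =
    along (fun i j => if i = p.1.1 ∧ j = p.1.2 then 1 else 0) w := by
  unfold design along
  rw [Finset.card_filter, Fintype.sum_prod_type]
  simp only [Fin.sum_univ_four]
  simp

theorem sum_design (c : Fin 26 → Fin 26 → ℕ) (w : W) :
    ∑ p : Arc 26, c p.1.1 p.1.2 * design p w = along c w := by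
  simp_rw [design_eq]
  unfold along
  have key : ∀ i j : Fin 26, i ≠ j →
      ∑ p : Arc 26, c p.1.1 p.1.2 * (if i = p.1.1 ∧ j = p.1.2 then 1 else 0) = c i j := by
    intro i j hij
    rw [Finset.sum_eq_single (⟨(i, j), hij⟩ : Arc 26)]
    · simp
    · intro b _ hb
      rw [if_neg, mul_zero]
      rintro ⟨h1, h2⟩
      exact hb (Subtype.ext (Prod.ext h1.symm h2.symm))
    · simp
  simp_rw [mul_add, Finset.sum_add_distrib]
  rw [key _ _ (w.2 0 1 rfl), key _ _ (w.2 1 2 rfl), key _ _ (w.2 2 3 rfl)]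

theorem along_inv (c : Fin 26 → Fin 26 → ℕ) (x y : W → ℤ) (h : mulA x = mulA y) :
    ∑ w, (along c w : ℤ) * x w = ∑ w, (along c w : ℤ) * y w := by
  have key : ∀ x : W → ℤ, ∑ w, (along c w : ℤ) * x w = ∑ p : Arc 26, (c p.1.1 p.1.2 : ℤ) * mulA x p := by
    intro x
    unfold mulA
    simp_rw [Finset.mul_sum, ← sum_design]
    rw [Finset.sum_comm]
    refine Finset.sum_congr rfl fun w _ => ?_
    push_cast
    rw [Finset.sum_mul]
    exact Finset.sum_congr rfl fun p _ => by ring
  rw [key, key, h]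

/-- the invariant -/
def rho (w : W) : ℕ := along cert w % 30

theorem rho_le (w : W) (h : along bad w = 0) : rho w ≤ 1 := by
  unfold along at h
  exact cert_ok _ _ (by omega) _ (by omega) _ (by omega)

/-- vectors supported on the face -/
def OnFace (x : W → ℤ) : Prop := ∀ w, x w ≠ 0 → along bad w = 0

theorem onFace_of (x y : W → ℤ) (hy : 0 ≤ y) (hx : OnFace x) (h : mulA x = mulA y) : OnFace y := by
  have h1 := along_inv bad x y h
  have h2 : ∑ w, (along bad w : ℤ) * x w = 0 := Finset.sum_eq_zero fun w _ => by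
    by_cases hw : x w = 0
    · simp [hw]
    · simp [hx w hw]
  rw [h2] at h1
  have h3 := (Finset.sum_eq_zero_iff_of_nonneg
    (fun w _ => mul_nonneg (Int.natCast_nonneg _) (hy w))).mp h1.symm
  intro w hw
  have := h3 w (Finset.mem_univ w)
  rcases mul_eq_zero.mp this with h | h
  · exact_mod_cast h
  · exact absurd h hw

theorem rho_inv (x y : W → ℤ) (hx0 : 0 ≤ x) (hy0 : 0 ≤ y) (hx : OnFace x) (h : mulA x = mulA y)
    (hd : ∑ w, x w ≤ 29) : ∑ w, (rho w : ℤ) * x w = ∑ w, (rho w : ℤ) * y w := by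
  have hy := onFace_of x y hy0 hx h
  have h1 := along_inv (fun _ _ => 1) x y h
  have h3 : ∀ w : W, ((along (fun _ _ => 1) w : ℕ) : ℤ) = 3 := fun w => rfl
  simp_rw [h3, ← Finset.mul_sum] at h1
  have bd : ∀ x : W → ℤ, 0 ≤ x → OnFace x →
      0 ≤ ∑ w, (rho w : ℤ) * x w ∧ ∑ w, (rho w : ℤ) * x w ≤ ∑ w, x w := by
    intro x hx0 hx
    refine ⟨Finset.sum_nonneg fun w _ => mul_nonneg (Int.natCast_nonneg _) (hx0 w),
      Finset.sum_le_sum fun w _ => ?_⟩
    by_cases hw : x w = 0
    · simp [hw]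
    · have h4 : (rho w : ℤ) ≤ 1 := by exact_mod_cast rho_le w (hx w hw)
      exact mul_le_of_le_one_left (hx0 w) h4
  have md : ∀ x : W → ℤ, ∑ w, (along cert w : ℤ) * x w =
      ∑ w, (rho w : ℤ) * x w + 30 * ∑ w, ((along cert w / 30 : ℕ) : ℤ) * x w := by
    intro x
    rw [Finset.mul_sum, ← Finset.sum_add_distrib]
    refine Finset.sum_congr rfl fun w _ => ?_
    have : (along cert w : ℤ) = (rho w : ℤ) + 30 * ((along cert w / 30 : ℕ) : ℤ) := by
      unfold rho
      exact_mod_cast (Nat.mod_add_div _ _).symm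
    rw [this]; ring
  have h2 := along_inv cert x y h
  rw [md x, md y] at h2
  have := bd x hx0 hx
  have := bd y hy0 hy
  omega

def mk (a b c d : Fin 26) (h : a ≠ b ∧ b ≠ c ∧ c ≠ d) : W :=
  ⟨![a, b, c, d], by
    intro t t' ht
    fin_cases t <;> fin_cases t' <;> simp_all⟩

def posW : Fin 14 → W :=
  ![mk 2 8 9 10 (by decide), mk 2 9 10 7 (by decide), mk 0 2 11 12 (by decide),
    mk 0 3 12 13 (by decide), mk 12 13 6 1 (by decide), mk 3 14 15 16 (by decide),
    mk 3 15 16 7 (by decide), mk 4 17 18 19 (by decide), mk 4 18 19 6 (by decide),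
    mk 0 4 20 21 (by decide), mk 0 5 21 22 (by decide), mk 21 22 7 1 (by decide),
    mk 5 23 24 25 (by decide), mk 5 24 25 7 (by decide)]

def posM : Fin 14 → ℕ := ![1, 1, 2, 2, 2, 1, 1, 2, 2, 4, 4, 4, 2, 2]

def negW : Fin 16 → W :=
  ![mk 0 2 8 9 (by decide), mk 0 2 9 10 (by decide), mk 9 10 7 1 (by decide),
    mk 2 11 12 13 (by decide), mk 3 12 13 6 (by decide), mk 0 3 14 15 (by decide),
    mk 0 3 15 16 (by decide), mk 15 16 7 1 (by decide), mk 0 4 17 18 (by decide),
    mk 0 4 18 19 (by decide), mk 18 19 6 1 (by decide), mk 4 20 21 22 (by decide),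
    mk 5 21 22 7 (by decide), mk 0 5 23 24 (by decide), mk 0 5 24 25 (by decide),
    mk 24 25 7 1 (by decide)]

def negM : Fin 16 → ℕ := ![1, 1, 1, 2, 2, 1, 1, 1, 2, 2, 2, 4, 4, 2, 2, 2]

theorem balance : ∀ i j : Fin 26,
    ∑ k, along (fun a b => if a = i ∧ b = j then 1 else 0) (posW k) * posM k =
    ∑ k, along (fun a b => if a = i ∧ b = j then 1 else 0) (negW k) * negM k := by
  decide +kernel

theorem pos_face : ∀ k, along bad (posW k) = 0 := by decide +kernel
theorem neg_face : ∀ k, along bad (negW k) = 0 := by decide +kernel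
theorem pos_rho : ∑ k, rho (posW k) * posM k = 30 := by decide +kernel
theorem neg_rho : ∑ k, rho (negW k) * negM k = 0 := by decide +kernel

noncomputable def tab {n : ℕ} (f : Fin n → W) (m : Fin n → ℕ) : W →₀ ℕ :=
  ∑ k, Finsupp.single (f k) (m k)

theorem sum_tab {n : ℕ} (f : Fin n → W) (m : Fin n → ℕ) (g : W → ℕ) :
    ∑ w, (g w : ℤ) * (tab f m w : ℤ) = ((∑ k, g (f k) * m k : ℕ) : ℤ) := by
  classical
  unfold tab
  simp_rw [Finsupp.finsetSum_apply]
  push_cast
  simp_rw [Finset.mul_sum]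
  rw [Finset.sum_comm]
  refine Finset.sum_congr rfl fun k _ => ?_
  rw [Finset.sum_eq_single (f k)]
  · simp
  · intro b _ hb
    rw [Finsupp.single_eq_of_ne hb]; simp
  · simp

noncomputable def uu : W →₀ ℕ := tab posW posM
noncomputable def vv : W →₀ ℕ := tab negW negM

theorem mulA_uv : mulA (fun w => (uu w : ℤ)) = mulA (fun w => (vv w : ℤ)) := by
  funext p
  unfold mulA uu vv
  rw [sum_tab posW posM (design p), sum_tab negW negM (design p)]
  simp_rw [design_eq]
  rw [balance]

theorem face_tab {n : ℕ} (f : Fin n → W) (m : Fin n → ℕ) (h : ∀ k, along bad (f k) = 0) :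
    OnFace (fun w => (tab f m w : ℤ)) := by
  have h1 := sum_tab f m (along bad)
  simp only [h, zero_mul, Finset.sum_const_zero, Nat.cast_zero] at h1
  have h3 := (Finset.sum_eq_zero_iff_of_nonneg
    (fun w _ => mul_nonneg (Int.natCast_nonneg _) (Int.natCast_nonneg _))).mp h1
  intro w hw
  rcases mul_eq_zero.mp (h3 w (Finset.mem_univ w)) with h | h
  · exact_mod_cast h
  · exact absurd h hw

theorem rho_u : ∑ w, (rho w : ℤ) * (uu w : ℤ) = 30 := by
  unfold uu; rw [sum_tab, pos_rho]; rfl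

theorem rho_v : ∑ w, (rho w : ℤ) * (vv w : ℤ) = 0 := by
  unfold vv; rw [sum_tab, neg_rho]; rfl

theorem mulA_sub (x y : W → ℤ) : mulA (x - y) = mulA x - mulA y := by
  funext p
  simp only [mulA, Pi.sub_apply, mul_sub, Finset.sum_sub_distrib]

theorem move_inv (a b : W → ℤ) (ha : OnFace a) (hb : OnFace b) (h : mulA (b - a) = 0)
    (hd : moveDegree (b - a) ≤ 29) : ∑ w, (rho w : ℤ) * a w = ∑ w, (rho w : ℤ) * b w := by
  have h1 : (fun w => max ((b - a) w) 0) - (fun w => max (-(b - a) w) 0) = b - a := by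
    funext w
    simp only [Pi.sub_apply]
    omega
  have h2 := rho_inv (fun w => max ((b - a) w) 0) (fun w => max (-(b - a) w) 0)
    (fun w => le_max_right _ _) (fun w => le_max_right _ _)
    (by
      intro w hw
      by_cases h1 : b w = 0
      · apply ha w
        intro h2
        simp [h1, h2] at hw
      · exact hb w h1)
    (by rw [← sub_eq_zero, ← mulA_sub, h1, h]) hd
  rw [← sub_eq_zero, ← Finset.sum_sub_distrib] at h2
  symm
  rw [← sub_eq_zero, ← Finset.sum_sub_distrib, ← h2]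
  refine Finset.sum_congr rfl fun w _ => ?_
  have := congrFun h1 w
  simp only [Pi.sub_apply] at this ⊢
  rw [← mul_sub, ← mul_sub, this]

theorem markov (Z : Finset (W → ℤ)) (hZ : IsMarkovBasis Z) : ∃ z ∈ Z, 30 ≤ moveDegree z := by
  by_contra hcon
  push Not at hcon
  have key : ∀ y, Relation.ReflTransGen (fun a b : W → ℤ => 0 ≤ b ∧ (b - a ∈ Z ∨ a - b ∈ Z))
      (fun w => (uu w : ℤ)) y → OnFace y ∧ ∑ w, (rho w : ℤ) * y w = 30 := by
    intro y hy
    induction hy with
    | refl => exact ⟨face_tab _ _ pos_face, rho_u⟩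
    | @tail a b _ hab ih =>
      obtain ⟨hb0, hab⟩ := hab
      have hA : mulA a = mulA b := by
        rcases hab with h | h
        · have := hZ.1 _ h
          rw [mulA_sub, sub_eq_zero] at this
          exact this.symm
        · have := hZ.1 _ h
          rwa [mulA_sub, sub_eq_zero] at this
      have hb := onFace_of a b hb0 ih.1 hA
      refine ⟨hb, ?_⟩
      rcases hab with h | h
      · rw [← move_inv a b ih.1 hb (hZ.1 _ h) (by have := hcon _ h; omega)]
        exact ih.2
      · rw [move_inv b a hb ih.1 (hZ.1 _ h) (by have := hcon _ h; omega)]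
        exact ih.2
  have := (key _ (hZ.2 _ _ (fun w => Int.natCast_nonneg _) (fun w => Int.natCast_nonneg _)
    mulA_uv)).2
  rw [rho_v] at this
  omega

section Ideal

variable (k : Type) [Field k]

/-- exponent vector of the image of a monomial -/
noncomputable def expo {S T : ℕ} (m : Word S T →₀ ℕ) : Arc S →₀ ℕ :=
  Finsupp.equivFunOnFinite.symm (fun p => ∑ w, design p w * m w)

theorem phi_monomial {S T : ℕ} (m : Word S T →₀ ℕ) (a : k) :
    aeval (R := k) (fun w : Word S T => ∏ p : Arc S, (X p : MvPolynomial (Arc S) k) ^ design p w)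
      (monomial m a) = monomial (expo m) a := by
  rw [aeval_monomial, monomial_eq, algebraMap_eq, Finsupp.prod_fintype _ _ (by simp),
    Finsupp.prod_fintype _ _ (by simp)]
  congr 1
  simp_rw [← Finset.prod_pow, ← pow_mul]
  rw [Finset.prod_comm]
  refine Finset.prod_congr rfl fun p _ => ?_
  rw [Finset.prod_pow_eq_pow_sum]
  rfl

theorem expo_iff {S T : ℕ} (m m' : Word S T →₀ ℕ) :
    expo m = expo m' ↔ mulA (fun w => (m w : ℤ)) = mulA (fun w => (m' w : ℤ)) := by
  constructor
  · intro h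
    funext p
    have : ∑ w, design p w * m w = ∑ w, design p w * m' w := congrArg (fun f => f p) h
    show ∑ w, (design p w : ℤ) * (m w : ℤ) = ∑ w, (design p w : ℤ) * (m' w : ℤ)
    exact_mod_cast this
  · intro h
    ext p
    have : ∑ w, (design p w : ℤ) * (m w : ℤ) = ∑ w, (design p w : ℤ) * (m' w : ℤ) := congrFun h p
    show ∑ w, design p w * m w = ∑ w, design p w * m' w
    exact_mod_cast this

/-- the test point -/
def pt (w : W) : k := if along bad w = 0 ∧ rho w = 0 then 1 else 0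

theorem eval_pt (m : W →₀ ℕ) : (m.prod fun w e => pt k w ^ e) =
    open Classical in if OnFace (fun w => (m w : ℤ)) ∧ ∑ w, (rho w : ℤ) * (m w : ℤ) = 0 then 1 else 0 := by
  split_ifs with h
  · apply Finset.prod_eq_one
    intro w hw
    have hw' := Finsupp.mem_support_iff.mp hw
    have h3 := (Finset.sum_eq_zero_iff_of_nonneg
      (fun w _ => mul_nonneg (Int.natCast_nonneg _) (Int.natCast_nonneg _))).mp h.2 w
      (Finset.mem_univ w)
    have h4 : rho w = 0 := by
      rcases mul_eq_zero.mp h3 with h | h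
      · exact_mod_cast h
      · exact absurd (by exact_mod_cast h) hw'
    have h5 : pt k w = 1 := if_pos ⟨h.1 w (Int.natCast_ne_zero.mpr hw'), h4⟩
    simp [h5]
  · by_contra hne
    apply h
    have h1 : ∀ w, m w ≠ 0 → along bad w = 0 ∧ rho w = 0 := by
      intro w hw
      by_contra h2
      apply hne
      apply Finset.prod_eq_zero (Finsupp.mem_support_iff.mpr hw)
      have : pt k w = 0 := if_neg h2
      simp only [this]
      exact zero_pow hw
    refine ⟨fun w hw => (h1 w (Int.natCast_ne_zero.mp hw)).1, Finset.sum_eq_zero fun w _ => ?_⟩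
    by_cases hw : m w = 0
    · simp [hw]
    · simp [(h1 w hw).2]

theorem eval_low (q : MvPolynomial W k) (hq : q ∈ toricIdeal k 26 4) (hd : q.totalDegree ≤ 29) :
    eval (pt k) q = 0 := by
  classical
  let g : (W →₀ ℕ) → k := fun m => m.prod fun w e => pt k w ^ e
  have hg : ∀ m ∈ q.support, ∀ m' ∈ q.support, expo m = expo m' → g m = g m' := by
    have aux : ∀ m ∈ q.support, ∀ m' : W →₀ ℕ, expo m = expo m' →
        (OnFace (fun w => (m w : ℤ)) ∧ ∑ w, (rho w : ℤ) * (m w : ℤ) = 0) →
        (OnFace (fun w => (m' w : ℤ)) ∧ ∑ w, (rho w : ℤ) * (m' w : ℤ) = 0) := by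
      intro m hm m' h h1
      have hA := (expo_iff m m').mp h
      refine ⟨onFace_of _ _ (fun w => Int.natCast_nonneg _) h1.1 hA, ?_⟩
      rw [← rho_inv _ _ (fun w => Int.natCast_nonneg _) (fun w => Int.natCast_nonneg _) h1.1 hA]
      · exact h1.2
      · have h2 := (le_totalDegree hm).trans hd
        rw [Finsupp.sum_fintype _ _ (by simp)] at h2
        exact_mod_cast h2
    intro m hm m' hm' h
    simp only [g, eval_pt]
    rw [if_congr ⟨aux m hm m' h, aux m' hm' m h.symm⟩ rfl rfl]
  let G : (Arc 26 →₀ ℕ) → k := fun b => if h : ∃ m ∈ q.support, expo m = b then g h.choose else 0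
  have hG : ∀ m ∈ q.support, G (expo m) = g m := by
    intro m hm
    have h : ∃ m' ∈ q.support, expo m' = expo m := ⟨m, hm, rfl⟩
    simp only [G, dif_pos h]
    exact hg _ h.choose_spec.1 _ hm h.choose_spec.2
  have h0 : ∑ m ∈ q.support, monomial (expo m) (coeff m q) = 0 := by
    have : aeval (R := k) (fun w : W => ∏ p : Arc 26, (X p : MvPolynomial (Arc 26) k) ^ design p w)
      q = 0 := hq
    conv_lhs at this => rw [q.as_sum, map_sum]
    simpa only [phi_monomial] using this
  have h1 : ∑ b ∈ q.support.image expo, G b * coeff b (∑ m ∈ q.support,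
      monomial (expo m) (coeff m q)) = ∑ m ∈ q.support, coeff m q * g m := by
    simp_rw [coeff_sum, coeff_monomial, Finset.mul_sum]
    rw [Finset.sum_comm]
    refine Finset.sum_congr rfl fun m hm => ?_
    rw [Finset.sum_eq_single (expo m)]
    · rw [if_pos rfl, hG m hm, mul_comm]
    · intro b _ hb
      rw [if_neg (Ne.symm hb), mul_zero]
    · intro h
      exact absurd (Finset.mem_image_of_mem _ hm) h
  rw [h0] at h1
  rw [eval_eq]
  simp only [coeff_zero, mul_zero, Finset.sum_const_zero] at h1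
  exact h1.symm

theorem not_span (B : Set (MvPolynomial W k)) (hB : ∀ g ∈ B, g ∈ toricIdeal k 26 4)
    (hd : ∀ g ∈ B, g.totalDegree ≤ 29) : ¬ toricIdeal k 26 4 ≤ Ideal.span B := by
  intro h
  have h1 : (monomial vv 1 - monomial uu 1 : MvPolynomial W k) ∈ toricIdeal k 26 4 := by
    unfold toricIdeal
    rw [RingHom.mem_ker, map_sub, phi_monomial, phi_monomial, (expo_iff _ _).mpr mulA_uv, sub_self]
  have h2 : Ideal.span B ≤ RingHom.ker (eval (pt k)) :=
    Ideal.span_le.mpr fun g hg => eval_low k g (hB g hg) (hd g hg)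
  have h3 := h2 (h h1)
  rw [RingHom.mem_ker, map_sub, eval_monomial, eval_monomial, eval_pt, eval_pt,
    if_pos ⟨face_tab _ _ neg_face, rho_v⟩, if_neg (fun h => by rw [rho_u] at h; omega)] at h3
  simp at h3

theorem groebner_span {σ : Type} (m : MonomialOrder σ) (I : Ideal (MvPolynomial σ k))
    (B : Set (MvPolynomial σ k)) (h : IsGroebnerBasis m I B) : I ≤ Ideal.span B := by
  intro f hf
  obtain ⟨g, r, h1, _, h3⟩ := m.div_set (B := B \ {0})
    (fun b hb => isUnit_iff_ne_zero.mpr (m.leadingCoeff_ne_zero_iff.mpr hb.2)) f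
  have hs : Finsupp.linearCombination (MvPolynomial σ k)
      (fun b : (B \ {0} : Set (MvPolynomial σ k)) => (b : MvPolynomial σ k)) g ∈ Ideal.span B := by
    rw [Finsupp.linearCombination_apply, Finsupp.sum]
    exact Ideal.sum_mem _ fun b _ => Ideal.mul_mem_left _ _ (Ideal.subset_span b.2.1)
  have hr : r ∈ I := by
    have h4 : Ideal.span B ≤ I := Ideal.span_le.mpr h.1
    have := I.sub_mem hf (h4 hs)
    rwa [h1, add_sub_cancel_left] at this
  have hr0 : r = 0 := by
    by_contra hne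
    obtain ⟨b, hb, hb0, hle⟩ := h.2 r hr hne
    exact h3 _ (m.degree_mem_support hne) b ⟨hb, hb0⟩ hle
  rw [h1, hr0, add_zero]
  exact hs

end Ideal

end Pool.Agent.H101Z.THMC
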