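import Mathlib

set_option autoImplicit false

namespace Pool.Agent.H101Z.THMC

/-- Words of length `T` in `S` states without self-loops. -/
abbrev Word (S T : ℕ) : Type :=
  {w : Fin T → Fin S // ∀ t t' : Fin T, t'.val = t.val + 1 → w t ≠ w t'}

/-- Ordered pairs of distinct states. -/
abbrev Arc (S : ℕ) : Type := {p : Fin S × Fin S // p.1 ≠ p.2}

/-- The design matrix: the number of transitions from `i` to `j` in the word `w`. -/
def design {S T : ℕ} (p : Arc S) (w : Word S T) : ℕ :=
  (Finset.univ.filter fun tt : Fin T × Fin T =>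
    tt.2.val = tt.1.val + 1 ∧ w.1 tt.1 = p.1.1 ∧ w.1 tt.2 = p.1.2).card

/-- The product of the design matrix with an integer vector. -/
def mulA {S T : ℕ} (z : Word S T → ℤ) (p : Arc S) : ℤ := ∑ w, (design p w : ℤ) * z w

/-- The degree of the binomial of a move: the sum of the entries of its positive part. -/
def moveDegree {S T : ℕ} (z : Word S T → ℤ) : ℤ := ∑ w, max (z w) 0

/-- A Markov basis: a finite set of moves such that any two nonnegative vectors in a fibre are
joined by a sequence of steps, each a move of the set or its negative, through nonnegative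
vectors. -/
def IsMarkovBasis {S T : ℕ} (Z : Finset (Word S T → ℤ)) : Prop :=
  (∀ z ∈ Z, mulA z = 0) ∧
  ∀ x y : Word S T → ℤ, 0 ≤ x → 0 ≤ y → mulA x = mulA y →
    Relation.ReflTransGen (fun a b : Word S T → ℤ => 0 ≤ b ∧ (b - a ∈ Z ∨ a - b ∈ Z)) x y

/-- The toric ideal of the design matrix over the field `k`. -/
noncomputable def toricIdeal (k : Type) [Field k] (S T : ℕ) : Ideal (MvPolynomial (Word S T) k) :=
  RingHom.ker (MvPolynomial.aeval (R := k)
    (fun w : Word S T => ∏ p : Arc S, (MvPolynomial.X p : MvPolynomial (Arc S) k) ^ design p w))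

/-- A Groebner basis of `I` for the term order `m`: a subset of `I` such that the leading monomial
of every nonzero element of `I` is divisible by the leading monomial of a nonzero element of the
subset. -/
def IsGroebnerBasis {k σ : Type} [Field k] (m : MonomialOrder σ) (I : Ideal (MvPolynomial σ k))
    (B : Set (MvPolynomial σ k)) : Prop :=
  (∀ g ∈ B, g ∈ I) ∧ ∀ f ∈ I, f ≠ 0 → ∃ g ∈ B, g ≠ 0 ∧ m.degree g ≤ m.degree f

end Pool.Agent.H101Z.THMC
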